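import Pool.Agent.Lib.H40P.Prod
import Pool.Agent.Lib.H18GB.FL

/-!
# Chunk CMP1: counting in one residue class with the fundamental lemma
-/

set_option linter.unusedSectionVars false

open Finset Pool.Agent.Lib.H56G Pool.Agent.Lib.Sieve Pool.Agent.Lib.H18GB

namespace Pool.Agent.Lib.H40P

variable {ι J : Type} [Fintype ι] [DecidableEq ι] [Fintype J] [DecidableEq J]

/-- The number of `u < U` such that no form of `K` at `t = c + m u` has a prime factor in `Q`, where `m`
is coprime to the primes of `Q`. This is `fl_sum` (H18GB/FL.lean) with `S = Q`,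
`Ω q = {u mod q : some form of K at c + m u is divisible by q}` (exactly `|K|` residues because `M m` is
invertible and the `b j` are distinct mod `q`). -/
theorem cmp1 (s : PSys ι J) (k A' w z : ℕ) (hz : 2 ≤ z) (hw : 2 * k + 2 ≤ w)
    (hQ : PSet w z s.Q) (K : Finset J) (hK : K.card ≤ k) (c m : ℕ)
    (hm : ∀ q ∈ s.Q, ¬ q ∣ m) (U : ℕ) :
    |∑ u ∈ range U, s.rg K (c + m * u) - U * s.V K.card| ≤
      1 / 2 * (1 / 2) ^ (2 * A') * (U * s.V K.card) + (z : ℝ) ^ (192 * k + 24 + 8 * A') := by
  sorry

end Pool.Agent.Lib.H40P
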