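import Pool.Agent.Lib.H40P.Cmp1

/-!
# Chunk CMP2: comparison of the mean over `t ≤ T` with the mean over the full period
-/

set_option linter.unusedSectionVars false

open Finset Pool.Agent.Lib.H56G Pool.Agent.Lib.Sieve Pool.Agent.Lib.H18GB

namespace Pool.Agent.Lib.H40P

variable {ι J : Type} [Fintype ι] [DecidableEq ι] [Fintype J] [DecidableEq J]

/-- Let `m = ∏_{i ∈ I} p_i ≤ D`, `F = ∏_{i ∈ I} f_i` (periodic mod `m`). Split `t = c + m u`, `1 ≤ c ≤ m`,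
`u < U_c`, `|U_c - T/m| ≤ 1`; by `cmp1` the number of `u` with `rg K = 1` is `(T/m) V(|K|)` up to
`2 + z^B + 1/2 (1/2)^(2A') (T/m) V(|K|)` (`V ≤ 1`), which is at most `(1/2)^(2A') (T/m) V(|K|)`
by `hnum` (`V k ≤ V |K|`, `T/D ≤ T/m`). Sum over `c` with weight `F(c)` and compare with `avP_prod_on`
(the mean of `F` over a period is `∏_{i ∈ I}` of the means, `H56G.sum_range_prod`). -/
theorem cmp2 (s : PSys ι J) (k A' w z T : ℕ) (D : ℝ) (hz : 2 ≤ z) (hw : 2 * k + 2 ≤ w)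
    (hQ : PSet w z s.Q) (hT : 0 < T) (hD : 1 ≤ D)
    (hnum : 2 + (z : ℝ) ^ (192 * k + 24 + 8 * A') ≤
      1 / 2 * (1 / 2) ^ (2 * A') * ((T : ℝ) / D * s.V k)) :
    Cmp s T k D ((1 / 2) ^ (2 * A')) := by
  sorry

end Pool.Agent.Lib.H40P
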