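import Pool.Agent.Lib.H56G.Main0
import Pool.Agent.Lib.H56G.Slow

/-!
# H40P: a positive proportion of intervals of length `λ log x` without primes. Definitions.

We use the linear forms `b j + M t` and the configurations of project H56G (`Sys`, `U`, `cc`, `cmaj`, `cp`,
`wt`, `ZZ`, ...). New: a finite set `Q` of small primes; only forms without a prime factor in `Q` may be
active (presieve `rg`).
-/

open Finset Pool.Agent.Lib.H56G

namespace Pool.Agent.Lib.H40P

/-- A system of forms with a set `Q` of presieving primes. -/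
structure PSys (ι J : Type) extends Sys ι J where
  Q : Finset ℕ
  qprime : ∀ q ∈ Q, q.Prime
  qM : ∀ q ∈ Q, ¬ q ∣ M
  qdist : ∀ q ∈ Q, ∀ j j', j ≠ j' → ¬ (b j ≡ b j' [MOD q])
  qpr : ∀ i, pr i ∉ Q

variable {ι J : Type} [Fintype ι] [DecidableEq ι] [Fintype J] [DecidableEq J]

/-- mean value over `1 ≤ t ≤ T` -/
noncomputable def avT (T : ℕ) (f : ℕ → ℝ) : ℝ := (∑ t ∈ Icc 1 T, f t) / T

/-- the forms which are used by a configuration -/
def act (κ : ι → Option J) : Finset J := univ.filter (fun j => ∃ i, κ i = some j)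

namespace PSys

variable (s : PSys ι J)

/-- `1` if no `q ∈ Q` divides one of the forms `j ∈ K` at `t`, and `0` otherwise -/
noncomputable def rg (K : Finset J) (t : ℕ) : ℝ :=
  if ∀ j ∈ K, ∀ q ∈ s.Q, ¬ q ∣ s.b j + s.M * t then 1 else 0

/-- `∏_{q ∈ Q} (1 - n/q)` -/
noncomputable def V (n : ℕ) : ℝ := ∏ q ∈ s.Q, (1 - (n : ℝ) / q)

/-- the full period -/
def P : ℕ := (∏ q ∈ s.Q, q) * ∏ i, s.pr i

/-- mean value over the full period -/
noncomputable def avP (f : ℕ → ℝ) : ℝ := (∑ t ∈ range s.P, f t) / s.P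

/-- the form `j` at `t` has no prime factor in `Q` and none among the `pr i` -/
def Rough (j : J) (t : ℕ) : Prop :=
  (∀ q ∈ s.Q, ¬ q ∣ s.b j + s.M * t) ∧ ∀ i, ¬ s.pr i ∣ s.b j + s.M * t

/-- `Σ_κ c(κ) U_κ(t)` with the presieve on the active forms and on the forms of `K0` -/
noncomputable def FF (c : (ι → Option J) → ℝ) (K0 : Finset J) (t : ℕ) : ℝ :=
  ∑ κ, c κ * s.U κ t * s.rg (act κ ∪ K0) t

/-- the same with absolute values -/
noncomputable def GG (c : (ι → Option J) → ℝ) (K0 : Finset J) (t : ℕ) : ℝ :=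
  ∑ κ, |c κ| * |s.U κ t| * s.rg (act κ ∪ K0) t

/-- `∏_i (1 + |u_i^j(t)|/(p_i - 1))` -/
noncomputable def pw (j : J) (t : ℕ) : ℝ := ∏ i, (1 + |s.u i j t| / ((s.pr i : ℝ) - 1))

/-- `exp (20 Σ_i 1/(p_i - 1))` -/
noncomputable def Gm : ℝ := Real.exp (20 * ∑ i, 1 / ((s.pr i : ℝ) - 1))

/-- `1 + 15 |J| V(1) Γ` -/
noncomputable def G1 : ℝ := 1 + 15 * (Fintype.card J : ℝ) * s.V 1 * s.Gm

end PSys

/-- Comparison of the mean over `t ≤ T` with the mean over the full period, for products of functions of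
`t mod p_i`, `i ∈ I`, of level `ρ(I) ≤ D`, and the presieve on at most `k` forms. -/
def Cmp (s : PSys ι J) (T k : ℕ) (D η : ℝ) : Prop :=
  ∀ (I : Finset ι) (f : ι → ℕ → ℝ) (K : Finset J),
    (∀ i, Function.Periodic (f i) (s.pr i)) → s.rho I ≤ D → K.card ≤ k →
    |avT T (fun t => (∏ i ∈ I, f i t) * s.rg K t) - s.avP (fun t => (∏ i ∈ I, f i t) * s.rg K t)|
      ≤ η * s.avP (fun t => (∏ i ∈ I, |f i t|) * s.rg K t)

/-- `S = Σ 1/(φ(A) log ρ(A))` over the sets `A` with `y < ρ(A) ≤ z` -/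
noncomputable def SA (s : Sys ι J) (y z : ℝ) : ℝ :=
  ∑ A ∈ (univ : Finset (Finset ι)).filter (fun A => y < s.rho A ∧ s.rho A ≤ z),
    1 / (s.phi A * Real.log (s.rho A))

/-- the weight `1/(S φ(A) log ρ(A))` for `y < ρ(A) ≤ z` -/
noncomputable def ba (s : Sys ι J) (y z : ℝ) (A : Finset ι) : ℝ :=
  if y < s.rho A ∧ s.rho A ≤ z then 1 / (SA s y z * (s.phi A * Real.log (s.rho A))) else 0

/-- the same times `√V(1)` -/
noncomputable def bv (s : PSys ι J) (y z : ℝ) (A : Finset ι) : ℝ :=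
  √(s.V 1) * ba s.toSys y z A

end Pool.Agent.Lib.H40P
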