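import Pool.Agent.Lib.H40P.Prod
import Pool.Agent.Lib.H56G.Schur3

/-!
# Chunk EPSQ: the quadratic form in the model
-/

set_option linter.unusedSectionVars false

open Finset Pool.Agent.Lib.H56G

namespace Pool.Agent.Lib.H40P

variable {ι J : Type} [Fintype ι] [DecidableEq ι] [Fintype J] [DecidableEq J]

/-- `avP_prod` and `H56G.sum_range_one`. -/
theorem avP_pair (s : PSys ι J) (K0 : Finset J) (κ κ' : ι → Option J) :
    s.avP (fun t => s.U κ t * s.rg (act κ ∪ K0) t * (s.U κ' t * s.rg (act κ' ∪ K0) t)) =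
      (∏ i, s.gram i (κ i) (κ' i)) * s.V (act κ ∪ K0 ∪ (act κ' ∪ K0)).card := by
  sorry

/-- `avP (FF²) = Σ_κκ' c c' gram V(|act κ ∪ act κ' ∪ K0|) ≤ Σ (c² + c'²)/2 |gram| V(..)`, and
`V(|act κ ∪ act κ' ∪ K0|) ≤ V(|act κ ∪ K0|)`; then the row sums (`H56G.row_sum_le`). -/
theorem avP_sq_le (s : PSys ι J) (hq : ∀ q ∈ s.Q, Fintype.card J ≤ q) (K0 : Finset J)
    (c : (ι → Option J) → ℝ) :
    s.avP (fun t => (s.FF c K0 t) ^ 2)
      ≤ ∑ κ, (c κ) ^ 2 * s.ps κ * s.V (act κ ∪ K0).card := by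
  sorry

/-- The diagonal minus the rest (compare `H56G.sch3_quad`). -/
theorem le_avP_sq (s : PSys ι J) (hq : ∀ q ∈ s.Q, Fintype.card J ≤ q) (K0 : Finset J)
    (c : (ι → Option J) → ℝ) :
    ∑ κ, (c κ) ^ 2 * (2 * s.ph κ - s.ps κ) * s.V (act κ ∪ K0).card
      ≤ s.avP (fun t => (s.FF c K0 t) ^ 2) := by
  sorry

end Pool.Agent.Lib.H40P
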