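import Pool.Agent.Lib.H40P.Rg
import Pool.Agent.Lib.H56G.Gram2

/-!
# Chunk PROD: the mean over the full period of a product
-/

set_option linter.unusedSectionVars false

open Finset Pool.Agent.Lib.H56G

namespace Pool.Agent.Lib.H40P

variable {ι J : Type} [Fintype ι] [DecidableEq ι] [Fintype J] [DecidableEq J]

/-- For `q ∈ Q` exactly `q - |K|` of the residues `t < q` are such that no form of `K` is divisible by `q`
(every form excludes one residue, `M` is invertible mod `q`; different forms exclude different
residues, `qdist`; see `gram1_T` in H56G for the same argument). -/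
theorem sum_range_q (s : PSys ι J) (q : ℕ) (hq : q ∈ s.Q) (K : Finset J) :
    ∑ t ∈ range q, (if ∀ j ∈ K, ¬ q ∣ s.b j + s.M * t then (1 : ℝ) else 0) = (q : ℝ) - K.card := by
  sorry

/-- Chinese remainders (`H56G.sum_range_mul`, `H56G.sum_range_prod`, `rg_eq_prod_Q`, `sum_range_q`). -/
theorem avP_prod (s : PSys ι J) (f : ι → ℕ → ℝ) (hf : ∀ i, Function.Periodic (f i) (s.pr i))
    (K : Finset J) :
    s.avP (fun t => (∏ i, f i t) * s.rg K t) =
      (∏ i, (∑ t ∈ range (s.pr i), f i t) / (s.pr i : ℝ)) * s.V K.card := by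
  sorry

/-- The same for a product over a subset (put `f i = 1` outside `I`; those means are `1`). -/
theorem avP_prod_on (s : PSys ι J) (I : Finset ι) (f : ι → ℕ → ℝ)
    (hf : ∀ i, Function.Periodic (f i) (s.pr i)) (K : Finset J) :
    s.avP (fun t => (∏ i ∈ I, f i t) * s.rg K t) =
      (∏ i ∈ I, (∑ t ∈ range (s.pr i), f i t) / (s.pr i : ℝ)) * s.V K.card := by
  sorry

end Pool.Agent.Lib.H40P
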