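import Pool.Agent.Lib.H40P.Defs

/-!
# Chunk RG: elementary properties of the presieve, of `V` and of the mean values
-/

set_option linter.unusedSectionVars false

open Finset Pool.Agent.Lib.H56G

namespace Pool.Agent.Lib.H40P

variable {ι J : Type} [Fintype ι] [DecidableEq ι] [Fintype J] [DecidableEq J]

theorem rg_nonneg (s : PSys ι J) (K : Finset J) (t : ℕ) : 0 ≤ s.rg K t := by
  unfold PSys.rg; split_ifs <;> norm_num

theorem rg_le_one (s : PSys ι J) (K : Finset J) (t : ℕ) : s.rg K t ≤ 1 := by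
  unfold PSys.rg; split_ifs <;> norm_num

theorem rg_empty (s : PSys ι J) (t : ℕ) : s.rg ∅ t = 1 := by
  unfold PSys.rg; simp

/-- `rg (K ∪ K') = rg K rg K'` -/
theorem rg_union (s : PSys ι J) (K K' : Finset J) (t : ℕ) :
    s.rg (K ∪ K') t = s.rg K t * s.rg K' t := by
  unfold PSys.rg
  by_cases h1 : ∀ j ∈ K, ∀ q ∈ s.Q, ¬ q ∣ s.b j + s.M * t
  · by_cases h2 : ∀ j ∈ K', ∀ q ∈ s.Q, ¬ q ∣ s.b j + s.M * t
    · rw [if_pos h1, if_pos h2, if_pos]
      · norm_num
      · intro j hj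
        rcases Finset.mem_union.mp hj with h | h
        · exact h1 j h
        · exact h2 j h
    · rw [if_neg h2, if_neg, mul_zero]
      intro h
      exact h2 fun j hj => h j (Finset.mem_union_right _ hj)
  · rw [if_neg h1, if_neg, zero_mul]
    intro h
    exact h1 fun j hj => h j (Finset.mem_union_left _ hj)

/-- `rg K = ∏_{j ∈ K} rg {j}` -/
theorem rg_eq_prod (s : PSys ι J) (K : Finset J) (t : ℕ) :
    s.rg K t = ∏ j ∈ K, s.rg {j} t := by
  induction K using Finset.induction_on with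
  | empty => rw [rg_empty, Finset.prod_empty]
  | insert a K ha ih => rw [Finset.prod_insert ha, ← ih, ← rg_union, Finset.insert_eq]

/-- `rg K = ∏_{q ∈ Q} [no form of K is divisible by q]` -/
theorem rg_eq_prod_Q (s : PSys ι J) (K : Finset J) (t : ℕ) :
    s.rg K t = ∏ q ∈ s.Q, (if ∀ j ∈ K, ¬ q ∣ s.b j + s.M * t then (1 : ℝ) else 0) := by
  unfold PSys.rg
  by_cases h : ∀ j ∈ K, ∀ q ∈ s.Q, ¬ q ∣ s.b j + s.M * t
  · rw [if_pos h]
    symm
    apply Finset.prod_eq_one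
    intro q hq
    rw [if_pos fun j hj => h j hj q hq]
  · rw [if_neg h]
    push Not at h
    obtain ⟨j, hj, q, hq, hd⟩ := h
    symm
    apply Finset.prod_eq_zero hq
    rw [if_neg fun h' => h' j hj hd]

/-- `V n ≥ 0` if all `q ≥ n` -/
theorem V_nonneg (s : PSys ι J) (n : ℕ) (hn : ∀ q ∈ s.Q, n ≤ q) : 0 ≤ s.V n := by
  unfold PSys.V
  apply Finset.prod_nonneg
  intro q hq
  have h1 : (0 : ℝ) < q := by exact_mod_cast (s.qprime q hq).pos
  have h2 : (n : ℝ) ≤ q := by exact_mod_cast hn q hq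
  rw [sub_nonneg, div_le_one h1]
  exact h2

theorem V_zero (s : PSys ι J) : s.V 0 = 1 := by unfold PSys.V; simp

/-- `V` is antitone -/
theorem V_anti (s : PSys ι J) {m n : ℕ} (hmn : m ≤ n) (hn : ∀ q ∈ s.Q, n ≤ q) :
    s.V n ≤ s.V m := by
  unfold PSys.V
  apply Finset.prod_le_prod
  · intro q hq
    have h1 : (0 : ℝ) < q := by exact_mod_cast (s.qprime q hq).pos
    have h2 : (n : ℝ) ≤ q := by exact_mod_cast hn q hq
    rw [sub_nonneg, div_le_one h1]
    exact h2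
  · intro q hq
    have h1 : (0 : ℝ) < q := by exact_mod_cast (s.qprime q hq).pos
    have h2 : (m : ℝ) ≤ n := by exact_mod_cast hmn
    have := div_le_div_of_nonneg_right h2 h1.le
    linarith

theorem V_one_pos (s : PSys ι J) : 0 < s.V 1 := by
  unfold PSys.V
  apply Finset.prod_pos
  intro q hq
  have h1 : (2 : ℝ) ≤ q := by exact_mod_cast (s.qprime q hq).two_le
  rw [sub_pos, div_lt_one (by linarith)]
  push_cast
  linarith

theorem V_one_le (s : PSys ι J) : s.V 1 ≤ 1 := by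
  unfold PSys.V
  apply Finset.prod_le_one
  · intro q hq
    have h1 : (2 : ℝ) ≤ q := by exact_mod_cast (s.qprime q hq).two_le
    rw [sub_nonneg, div_le_one (by linarith)]
    push_cast
    linarith
  · intro q hq
    have : (0 : ℝ) ≤ ((1 : ℕ) : ℝ) / q := by positivity
    linarith

/-- `V (n+1) ≤ V n V 1` and `V n ≤ (V 1)^n` -/
theorem V_succ_le (s : PSys ι J) (n : ℕ) (hn : ∀ q ∈ s.Q, n + 1 ≤ q) :
    s.V (n + 1) ≤ s.V n * s.V 1 := by
  unfold PSys.V
  rw [← Finset.prod_mul_distrib]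
  apply Finset.prod_le_prod
  · intro q hq
    have h1 : (0 : ℝ) < q := by exact_mod_cast (s.qprime q hq).pos
    have h2 : ((n + 1 : ℕ) : ℝ) ≤ q := by exact_mod_cast hn q hq
    rw [sub_nonneg, div_le_one h1]
    exact h2
  · intro q hq
    have h1 : (0 : ℝ) < q := by exact_mod_cast (s.qprime q hq).pos
    push_cast
    have h3 : (1 - (n : ℝ) / q) * (1 - 1 / q) = 1 - (n + 1) / q + n / q * (1 / q) := by
      field_simp
      ring
    have h4 : (0 : ℝ) ≤ n / q * (1 / q) := by positivity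
    linarith

theorem V_le_pow (s : PSys ι J) (n : ℕ) (hn : ∀ q ∈ s.Q, n ≤ q) : s.V n ≤ (s.V 1) ^ n := by
  induction n with
  | zero => rw [V_zero, pow_zero]
  | succ n ih =>
    have h1 := ih fun q hq => (Nat.le_succ n).trans (hn q hq)
    refine (V_succ_le s n hn).trans ?_
    rw [pow_succ]
    exact mul_le_mul_of_nonneg_right h1 (V_one_pos s).le

/-- `V n ≥ (1 - n²/w) V(1)^n` if all `q > w`, `2 n ≤ w`: each factor satisfies
`1 - n/q ≥ (1 - 1/q)^n (1 - n²/q²)`, and `Σ_{q > w} 1/q² ≤ 1/w` (`cnt_sum_inv_sq` has the same sum;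
or telescoping `1/q² ≤ 1/(q-1) - 1/q`). -/
theorem V_ge (s : PSys ι J) (n w : ℕ) (hw : ∀ q ∈ s.Q, w < q) (hn : 2 * n ≤ w) :
    (1 - (n : ℝ) ^ 2 / w) * (s.V 1) ^ n ≤ s.V n := by
  sorry

theorem avT_nonneg (T : ℕ) (f : ℕ → ℝ) (hf : ∀ t, 0 ≤ f t) : 0 ≤ avT T f := by
  unfold avT
  exact div_nonneg (Finset.sum_nonneg fun t _ => hf t) (Nat.cast_nonneg _)

theorem avT_mono (T : ℕ) (f g : ℕ → ℝ) (hf : ∀ t ∈ Icc 1 T, f t ≤ g t) :
    avT T f ≤ avT T g := by
  unfold avT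
  exact div_le_div_of_nonneg_right (Finset.sum_le_sum hf) (Nat.cast_nonneg _)

theorem avT_sum {α : Type} (T : ℕ) (S : Finset α) (f : α → ℕ → ℝ) :
    avT T (fun t => ∑ a ∈ S, f a t) = ∑ a ∈ S, avT T (f a) := by
  unfold avT
  rw [Finset.sum_comm, Finset.sum_div]

theorem avT_mul (T : ℕ) (c : ℝ) (f : ℕ → ℝ) : avT T (fun t => c * f t) = c * avT T f := by
  unfold avT
  rw [← Finset.mul_sum, mul_div_assoc]

theorem avP_nonneg (s : PSys ι J) (f : ℕ → ℝ) (hf : ∀ t, 0 ≤ f t) : 0 ≤ s.avP f := by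
  unfold PSys.avP
  exact div_nonneg (Finset.sum_nonneg fun t _ => hf t) (Nat.cast_nonneg _)

theorem avP_mono (s : PSys ι J) (f g : ℕ → ℝ) (hf : ∀ t, f t ≤ g t) : s.avP f ≤ s.avP g := by
  unfold PSys.avP
  exact div_le_div_of_nonneg_right (Finset.sum_le_sum fun t _ => hf t) (Nat.cast_nonneg _)

theorem avP_sum {α : Type} (s : PSys ι J) (S : Finset α) (f : α → ℕ → ℝ) :
    s.avP (fun t => ∑ a ∈ S, f a t) = ∑ a ∈ S, s.avP (f a) := by
  unfold PSys.avP
  rw [Finset.sum_comm, Finset.sum_div]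

theorem avP_mul (s : PSys ι J) (c : ℝ) (f : ℕ → ℝ) :
    s.avP (fun t => c * f t) = c * s.avP f := by
  unfold PSys.avP
  rw [← Finset.mul_sum, mul_div_assoc]

end Pool.Agent.Lib.H40P
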