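import Pool.Agent.Lib.H40P.Prod

/-!
# Chunk SQ: squares and fourth powers, comparison of the two means
-/

set_option linter.unusedSectionVars false

open Finset Pool.Agent.Lib.H56G

namespace Pool.Agent.Lib.H40P

variable {ι J : Type} [Fintype ι] [DecidableEq ι] [Fintype J] [DecidableEq J]

/-- Two configurations. `U κ U κ' rg(act κ ∪ K0) rg(act κ' ∪ K0)` is the product over `I = supp κ ∪ supp κ'`
of functions periodic mod `p_i`, times `rg (act κ ∪ act κ' ∪ K0)`; `ρ(I) ≤ r κ r κ' ≤ D1²`. -/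
theorem pair_cmp (s : PSys ι J) (T k m : ℕ) (D D1 η : ℝ) (h : Cmp s T k D η)
    (hD : D1 ^ 2 ≤ D) (hk : 2 * m ≤ k) (K0 : Finset J) (κ κ' : ι → Option J)
    (h1 : s.r κ ≤ D1) (h1' : s.r κ' ≤ D1)
    (h2 : (act κ ∪ K0).card ≤ m) (h2' : (act κ' ∪ K0).card ≤ m) :
    |avT T (fun t => s.U κ t * s.rg (act κ ∪ K0) t * (s.U κ' t * s.rg (act κ' ∪ K0) t)) -
      s.avP (fun t => s.U κ t * s.rg (act κ ∪ K0) t * (s.U κ' t * s.rg (act κ' ∪ K0) t))|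
    ≤ η * s.avP (fun t =>
      |s.U κ t| * s.rg (act κ ∪ K0) t * (|s.U κ' t| * s.rg (act κ' ∪ K0) t)) := by
  sorry

/-- Expand the square and use `pair_cmp`. -/
theorem sq_cmp (s : PSys ι J) (T k m : ℕ) (D D1 η : ℝ) (h : Cmp s T k D η) (hη : 0 ≤ η)
    (hD : D1 ^ 2 ≤ D) (hk : 2 * m ≤ k) (K0 : Finset J) (c : (ι → Option J) → ℝ)
    (hc : ∀ κ, c κ ≠ 0 → s.r κ ≤ D1 ∧ (act κ ∪ K0).card ≤ m) :
    |avT T (fun t => (s.FF c K0 t) ^ 2) - s.avP (fun t => (s.FF c K0 t) ^ 2)|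
      ≤ η * s.avP (fun t => (s.GG c K0 t) ^ 2) := by
  sorry

/-- Expand the fourth power (four configurations, level `≤ D1^4`, at most `4 m` forms). -/
theorem four_cmp (s : PSys ι J) (T k m : ℕ) (D D1 η : ℝ) (h : Cmp s T k D η) (hη : 0 ≤ η)
    (hD : D1 ^ 4 ≤ D) (hD1 : 1 ≤ D1) (hk : 4 * m ≤ k) (K0 : Finset J) (c : (ι → Option J) → ℝ)
    (hc : ∀ κ, c κ ≠ 0 → s.r κ ≤ D1 ∧ (act κ ∪ K0).card ≤ m) :
    avT T (fun t => (s.GG c K0 t) ^ 4) ≤ (1 + η) * s.avP (fun t => (s.GG c K0 t) ^ 4) := by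
  sorry

end Pool.Agent.Lib.H40P
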